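import Mathlib

set_option autoImplicit false

/-!
The 1-jet map of stationary discs attached to a quadric: definitions.
Matrices carry the operator norm of `ℂⁿ` with the Euclidean norm.
-/

namespace Pool.Agent.Work.MP_a09116_an

open scoped Matrix.Norms.L2Operator
open Matrix

variable {n d : ℕ}

/-- `P = ∑ a_j A_j`. -/
def Pm (A : Fin d → Matrix (Fin n) (Fin n) ℂ) (a : Fin d → ℂ) : Matrix (Fin n) (Fin n) ℂ :=
  ∑ j, a j • A j

/-- `A = ∑ (b_j - a_j - conj a_j) A_j`. -/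
def Am (A : Fin d → Matrix (Fin n) (Fin n) ℂ) (b : Fin d → ℝ) (a : Fin d → ℂ) :
    Matrix (Fin n) (Fin n) ℂ :=
  ∑ j, ((b j : ℂ) - a j - star (a j)) • A j

/-- `X` has operator norm `< 1` and solves `P X² + A X + P^* = 0`. -/
def IsSol (A : Fin d → Matrix (Fin n) (Fin n) ℂ) (b : Fin d → ℝ) (a : Fin d → ℂ)
    (X : Matrix (Fin n) (Fin n) ℂ) : Prop :=
  ‖X‖ < 1 ∧ Pm A a * X ^ 2 + Am A b a * X + (Pm A a)ᴴ = 0

open Classical in
/-- The unique `X` with `‖X‖ < 1` solving `P X² + A X + P^* = 0` (`0` if there is no unique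
solution, which does not happen for small `a`). -/
noncomputable def sol (A : Fin d → Matrix (Fin n) (Fin n) ℂ) (b : Fin d → ℝ) (a : Fin d → ℂ) :
    Matrix (Fin n) (Fin n) ℂ :=
  if h : ∃! X, IsSol A b a X then h.choose else 0

/-- `∑_r (X^*)^r M X^r`. -/
noncomputable def Ksum (M X : Matrix (Fin n) (Fin n) ℂ) : Matrix (Fin n) (Fin n) ℂ :=
  ∑' r : ℕ, Xᴴ ^ r * M * X ^ r

/-- The 1-jet map `(a, V) ↦ (V, (V^* (I - X^*) K_j (I - X) V)_j, Im a)`, with `X = X(a)` and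
`K_j = ∑_r (X^*)^r A_j X^r`.  (The numbers `V^* (I - X^*) K_j (I - X) V` are real, as `K_j` is
Hermitian.) -/
noncomputable def jetMap (A : Fin d → Matrix (Fin n) (Fin n) ℂ) (b : Fin d → ℝ)
    (p : (Fin d → ℂ) × (Fin n → ℂ)) : (Fin n → ℂ) × (Fin d → ℝ) × (Fin d → ℝ) :=
  (p.2,
    fun j => (star p.2 ⬝ᵥ (((1 - (sol A b p.1)ᴴ) * Ksum (A j) (sol A b p.1) *
      (1 - sol A b p.1)) *ᵥ p.2)).re,
    fun j => (p.1 j).im)

/-- The real `d × d` matrix `(Re ∑_r V^* (X^*)^r A_j A⁻¹ A_s X^r V)_{j,s}`. -/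
noncomputable def nondegMatrix (A : Fin d → Matrix (Fin n) (Fin n) ℂ) (b : Fin d → ℝ)
    (a : Fin d → ℂ) (V : Fin n → ℂ) : Matrix (Fin d) (Fin d) ℝ :=
  Matrix.of fun j s => (∑' r : ℕ, star V ⬝ᵥ (((sol A b a)ᴴ ^ r * A j * (Am A b a)⁻¹ * A s *
    (sol A b a) ^ r) *ᵥ V)).re

/-- `M` is strongly `𝔇(a)`-nondegenerate at `0`. -/
def StronglyNondegenerate (A : Fin d → Matrix (Fin n) (Fin n) ℂ) (b : Fin d → ℝ)
    (a : Fin d → ℂ) : Prop :=
  ∃ V : Fin n → ℂ, (nondegMatrix A b a V).PosDef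

end Pool.Agent.Work.MP_a09116_an
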