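import Pool.Agent.Work.MP_a09116_an.Smooth

set_option autoImplicit false
set_option linter.unusedSectionVars false

/-!
The derivative of the 1-jet map in real directions.
-/

namespace Pool.Agent.Work.MP_a09116_an

open scoped Matrix.Norms.L2Operator ContDiff
open Matrix Filter Topology

variable {n d : ℕ}

/-! ### Algebra -/

lemma alg_CE {X C P Av Y E : Mt n} (hC : C = Av + P * X) (hCh : Cᴴ = C)
    (hsol : P * X ^ 2 + Av * X + Pᴴ = 0)
    (hE : Y * X ^ 2 + P * (E * X + X * E) - 2 * (Y * X) + Av * E + Y = 0) :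
    C * E - Xᴴ * (C * E) * X = -(Y * (1 - X) ^ 2) := by
  have h1 : C * X = -Pᴴ := by
    have : C * X + Pᴴ = 0 := by
      rw [← hsol, hC]
      noncomm_ring
    exact eq_neg_of_add_eq_zero_left this
  have h2 : P = -(Xᴴ * C) := by
    have h3 := congrArg conjTranspose h1
    rw [conjTranspose_mul, conjTranspose_neg, conjTranspose_conjTranspose, hCh] at h3
    rw [h3, neg_neg]
  have h3 : P * (E * X) = -(Xᴴ * (C * E) * X) := by
    conv_lhs => rw [h2]
    noncomm_ring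
  have h4 : C * E - Xᴴ * (C * E) * X + Y * (1 - X) ^ 2 = 0 := by
    rw [← hE, sub_eq_add_neg, ← h3, hC, sq, sq]
    noncomm_ring
  exact eq_neg_of_add_eq_zero_left h4

lemma alg_E {X C Ci P Av Y E KY : Mt n} (hX : ‖X‖ < 1) (hC : C = Av + P * X) (hCh : Cᴴ = C)
    (hCi : Ci * C = 1) (hsol : P * X ^ 2 + Av * X + Pᴴ = 0)
    (hE : Y * X ^ 2 + P * (E * X + X * E) - 2 * (Y * X) + Av * E + Y = 0)
    (hKY : KY - Xᴴ * KY * X = Y) : E = -(Ci * KY * (1 - X) ^ 2) := by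
  have h1 := alg_CE hC hCh hsol hE
  have h2 : -(KY * (1 - X) ^ 2) - Xᴴ * (-(KY * (1 - X) ^ 2)) * X = -(Y * (1 - X) ^ 2) := by
    rw [← hKY, sq]
    noncomm_ring
  have h3 := stein_unique' hX h1 h2
  have h4 : Ci * (C * E) = E := by rw [← mul_assoc, hCi, one_mul]
  rw [← h4, h3]
  noncomm_ring

lemma alg_T {X K E L Q G : Mt n} (hX : ‖X‖ < 1) (hK : Kᴴ = K) {KY Ci : Mt n}
    (hE : E = -(Ci * KY * (1 - X) ^ 2)) (hG : G = K * Ci * KY) (hQ : Q - Xᴴ * Q * X = G)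
    (hL : L - Xᴴ * L * X = Eᴴ * K * X + Xᴴ * K * E) :
    (1 - Xᴴ) * L * (1 - X) - Eᴴ * K * (1 - X) - (1 - Xᴴ) * K * E =
      ((1 - X) ^ 2)ᴴ * Q * (1 - X) ^ 2 + (((1 - X) ^ 2)ᴴ * Q * (1 - X) ^ 2)ᴴ := by
  set R : Mt n := (1 - X) ^ 2 with hR
  have hKE : K * E = -(G * R) := by
    rw [hE, hG]
    noncomm_ring
  have hXR : X * R = R * X := by
    rw [hR, sq]
    noncomm_ring
  have hEK : Eᴴ * K = -(Rᴴ * Gᴴ) := by
    have := congrArg conjTranspose hKE
    rw [conjTranspose_mul, hK, conjTranspose_neg, conjTranspose_mul] at this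
    exact this
  have h1 : Xᴴ * Q * R - Xᴴ * (Xᴴ * Q * R) * X = Xᴴ * (G * R) := by
    rw [← hQ]
    have : Xᴴ * (Xᴴ * Q * R) * X = Xᴴ * (Xᴴ * Q * (R * X)) := by noncomm_ring
    rw [this, ← hXR]
    noncomm_ring
  have h1' : (Xᴴ * Q * R)ᴴ - Xᴴ * (Xᴴ * Q * R)ᴴ * X = (Xᴴ * (G * R))ᴴ := by
    rw [← h1]
    simp only [conjTranspose_sub, conjTranspose_mul, conjTranspose_conjTranspose, mul_assoc]
  have h2 : L = -(Xᴴ * Q * R) - (Xᴴ * Q * R)ᴴ := by
    refine stein_unique' hX hL ?_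
    have e1 : -(Xᴴ * Q * R) - (Xᴴ * Q * R)ᴴ - Xᴴ * (-(Xᴴ * Q * R) - (Xᴴ * Q * R)ᴴ) * X =
        -(Xᴴ * Q * R - Xᴴ * (Xᴴ * Q * R) * X) -
          ((Xᴴ * Q * R)ᴴ - Xᴴ * (Xᴴ * Q * R)ᴴ * X) := by noncomm_ring
    rw [e1, h1, h1', hEK, mul_assoc Xᴴ K E, hKE, conjTranspose_mul, conjTranspose_mul,
      conjTranspose_conjTranspose]
    noncomm_ring
  have hsq : (1 - X) * R = R * (1 - X) := by
    rw [mul_sub, sub_mul, one_mul, mul_one, hXR]
  have hR2 : Rᴴ = (1 - Xᴴ) * (1 - Xᴴ) := by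
    rw [hR, sq, conjTranspose_mul, conjTranspose_sub, conjTranspose_one]
  have h3 : (1 - Xᴴ) * (Xᴴ * Q * R) * (1 - X) - (1 - Xᴴ) * (G * R) = -(Rᴴ * Q * R) := by
    have e1 : (1 - Xᴴ) * (Xᴴ * Q * R) * (1 - X) = (1 - Xᴴ) * (Xᴴ * Q * ((1 - X) * R)) := by
      rw [hsq]
      noncomm_ring
    rw [e1, ← hQ, hR2]
    noncomm_ring
  have h3' : (1 - Xᴴ) * (Xᴴ * Q * R)ᴴ * (1 - X) - Rᴴ * Gᴴ * (1 - X) = -(Rᴴ * Q * R)ᴴ := by
    rw [← conjTranspose_neg, ← h3]
    simp only [conjTranspose_sub, conjTranspose_mul, conjTranspose_conjTranspose,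
      conjTranspose_one]
    noncomm_ring
  have e2 : (1 - Xᴴ) * L * (1 - X) - Eᴴ * K * (1 - X) - (1 - Xᴴ) * K * E =
      -((1 - Xᴴ) * (Xᴴ * Q * R) * (1 - X) - (1 - Xᴴ) * (G * R)) -
        ((1 - Xᴴ) * (Xᴴ * Q * R)ᴴ * (1 - X) - Rᴴ * Gᴴ * (1 - X)) := by
    rw [h2, hEK, mul_assoc (1 - Xᴴ) K E, hKE]
    noncomm_ring
  rw [e2, h3, h3']
  abel

lemma re_quad_star (M : Mt n) (V : Fin n → ℂ) :
    (star V ⬝ᵥ (Mᴴ *ᵥ V)).re = (star V ⬝ᵥ (M *ᵥ V)).re := by
  have h : star (star V ⬝ᵥ (M *ᵥ V)) = star V ⬝ᵥ (Mᴴ *ᵥ V) := by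
    rw [star_dotProduct, star_mulVec, dotProduct_mulVec]
    simp
  rw [← h]
  exact Complex.conj_re _

lemma quad_conj (R Q : Mt n) (V : Fin n → ℂ) :
    star V ⬝ᵥ ((Rᴴ * Q * R) *ᵥ V) = star (R *ᵥ V) ⬝ᵥ (Q *ᵥ (R *ᵥ V)) := by
  rw [star_mulVec, dotProduct_mulVec, dotProduct_mulVec, dotProduct_mulVec, vecMul_vecMul,
    vecMul_vecMul, mul_assoc]

/-! ### Smoothness of the quadratic form -/

lemma entry_contDiff (i k : Fin n) : ContDiff ℝ 1 (fun M : Mt n => M i k) :=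
  (LinearMap.toContinuousLinearMap (Matrix.entryLinearMap ℝ ℂ i k : Mt n →ₗ[ℝ] ℂ)).contDiff

/-- The quadratic form. -/
noncomputable def qf (p : Mt n × (Fin n → ℂ)) : ℝ := (star p.2 ⬝ᵥ (p.1 *ᵥ p.2)).re

lemma qf_contDiff : ContDiff ℝ 1 (qf (n := n)) := by
  unfold qf
  refine Complex.reCLM.contDiff.comp ?_
  simp only [dotProduct, mulVec]
  refine ContDiff.sum (fun i _ => ?_)
  refine ContDiff.mul ?_ ?_
  · exact star_contDiff.comp (by fun_prop)
  · refine ContDiff.sum (fun k _ => ?_)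
    refine ContDiff.mul ?_ (by fun_prop)
    exact (entry_contDiff i k).comp contDiff_fst

lemma qf_hasDerivAt {M : ℝ → Mt n} {M' : Mt n} {t : ℝ} (h : HasDerivAt M M' t)
    (V : Fin n → ℂ) : HasDerivAt (fun s => qf (M s, V)) (qf (M', V)) t := by
  let ℓ : Mt n →ₗ[ℝ] ℝ :=
    { toFun := fun N => qf (N, V)
      map_add' := by
        intro N N'
        unfold qf
        rw [add_mulVec, dotProduct_add, Complex.add_re]
      map_smul' := by
        intro c N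
        unfold qf
        rw [smul_mulVec, dotProduct_smul]
        simp }
  exact (LinearMap.toContinuousLinearMap ℓ).hasFDerivAt.comp_hasDerivAt t h

/-! ### The 1-jet map -/

section

variable {A : Fin d → Mt n} {b : Fin d → ℝ} {Bi : Mt n} (hB : Bi * Bm A b = 1)
  (hB' : Bm A b * Bi = 1) {a : Fin d → ℂ} (ha : ‖a‖ < rad A Bi)

/-- The matrix of the `j`-th quadratic form. -/
noncomputable def Mj (A : Fin d → Mt n) (b : Fin d → ℝ) (j : Fin d) (a : Fin d → ℂ) : Mt n :=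
  (1 - (sol A b a)ᴴ) * Ksum (A j) (sol A b a) * (1 - sol A b a)

lemma jetMap_eq (A : Fin d → Mt n) (b : Fin d → ℝ) (p : (Fin d → ℂ) × (Fin n → ℂ)) :
    jetMap A b p = (p.2, fun j => qf (Mj A b j p.1, p.2), fun j => (p.1 j).im) := rfl

include hB hB' ha in
lemma Mj_contDiffAt (j : Fin d) : ContDiffAt ℝ 1 (Mj A b j) a := by
  unfold Mj
  have h1 := sol_contDiffAt hB hB' ha
  have h2 : ContDiffAt ℝ 1 (fun a => (sol A b a)ᴴ) a := ct_contDiff.contDiffAt.comp a h1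
  have h3 : ContDiffAt ℝ 1 (fun a => Ksum (A j) (sol A b a)) a :=
    (Ksum_contDiffAt (A j) (sol_isSol hB ha hB').1).comp a h1
  exact ((contDiffAt_const.sub h2).mul h3).mul (contDiffAt_const.sub h1)

include hB hB' ha in
lemma jetMap_contDiffAt (V : Fin n → ℂ) : ContDiffAt ℝ 1 (jetMap A b) (a, V) := by
  have e : jetMap A b = fun p : (Fin d → ℂ) × (Fin n → ℂ) =>
      (p.2, (fun j => qf (Mj A b j p.1, p.2)), fun j => (p.1 j).im) := by
    funext p
    exact jetMap_eq A b p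
  rw [e]
  refine contDiffAt_snd.prodMk (ContDiffAt.prodMk ?_ ?_)
  · refine contDiffAt_pi.2 (fun j => ?_)
    refine qf_contDiff.contDiffAt.comp (a, V) (ContDiffAt.prodMk ?_ contDiffAt_snd)
    have h := Mj_contDiffAt hB hB' ha j
    exact ContDiffAt.comp (a, V) h contDiffAt_fst
  · refine contDiffAt_pi.2 (fun j => ?_)
    exact Complex.imCLM.contDiff.contDiffAt.comp (a, V) (by fun_prop)

include hB hB' ha in
/-- The derivative in the real direction `x` vanishes if all the numbers `Re W^* Q_j W` do. -/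
theorem fderiv_jetMap_eq_zero (hA : ∀ j, (A j)ᴴ = A j) (x : Fin d → ℝ) {X C Ci KY : Mt n}
    (hXs : IsSol A b a X) (hC : C = Am A b a + Pm A a * X) (hCh : Cᴴ = C) (hCi : Ci * C = 1)
    (hKY : KY - Xᴴ * KY * X = Pm A (fun j => (x j : ℂ))) (V : Fin n → ℂ)
    (hQ : ∀ j, ∃ Kj Q : Mt n, Kj - Xᴴ * Kj * X = A j ∧ Q - Xᴴ * Q * X = Kj * Ci * KY ∧
      (star ((1 - X) ^ 2 *ᵥ V) ⬝ᵥ (Q *ᵥ ((1 - X) ^ 2 *ᵥ V))).re = 0) :
    fderiv ℝ (jetMap A b) (a, V) ((fun j => (x j : ℂ)), 0) = 0 := by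
  set κ : Fin d → ℂ := fun j => (x j : ℂ) with hκ
  have hsolX : sol A b a = X := sol_eq hB ha hB' hXs
  have hX : ‖X‖ < 1 := hXs.1
  set Y : Mt n := Pm A κ with hY
  have hYh : Yᴴ = Y := by
    rw [hY]
    unfold Pm
    rw [conjTranspose_sum]
    refine Finset.sum_congr rfl (fun j _ => ?_)
    rw [conjTranspose_smul, hA j]
    simp [hκ]
  -- the curve
  set c : ℝ → (Fin d → ℂ) := fun t => a + t • κ with hc
  have hc0 : c 0 = a := by simp [hc]
  have hcd : HasDerivAt c κ 0 := by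
    have := ((hasDerivAt_id (0 : ℝ)).smul_const κ).const_add a
    rw [one_smul] at this
    exact this
  have hP : ∀ t, Pm A (c t) = Pm A a + t • Y := by
    intro t
    rw [hY]
    unfold Pm
    rw [Finset.smul_sum, ← Finset.sum_add_distrib]
    refine Finset.sum_congr rfl (fun j _ => ?_)
    simp only [hc, Pi.add_apply, Pi.smul_apply, add_smul, smul_assoc]
  have hAm : ∀ t, Am A b (c t) = Am A b a - (2 * t) • Y := by
    intro t
    rw [hY]
    unfold Am Pm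
    rw [Finset.smul_sum, ← Finset.sum_sub_distrib]
    refine Finset.sum_congr rfl (fun j _ => ?_)
    simp only [hc, Pi.add_apply, Pi.smul_apply, hκ]
    have h1 : (2 * t) • ((x j : ℂ) • A j) = ((2 * t : ℝ) * (x j : ℂ) : ℂ) • A j := by
      rw [← Complex.coe_smul, smul_smul]
    rw [h1, ← sub_smul]
    congr 1
    simp
    ring
  set Xt : ℝ → Mt n := fun t => sol A b (c t) with hXt
  set E : Mt n := fderiv ℝ (sol A b) a κ with hE
  have hXd : HasDerivAt Xt E 0 := by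
    have h1 : HasFDerivAt (sol A b) (fderiv ℝ (sol A b) a) (c 0) := by
      rw [hc0]
      exact ((sol_contDiffAt hB hB' ha).differentiableAt one_ne_zero).hasFDerivAt
    exact h1.comp_hasDerivAt (0 : ℝ) hcd
  have hX0 : Xt 0 = X := by
    simp only [hXt, hc0, hsolX]
  have hXsd : HasDerivAt (fun t => (Xt t)ᴴ) Eᴴ 0 :=
    (starL' (A := Mt n) ℝ).toContinuousLinearMap.hasFDerivAt.comp_hasDerivAt (0 : ℝ) hXd
  have hnear : ∀ᶠ t in 𝓝 (0 : ℝ), ‖c t‖ < rad A Bi := by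
    have hcc : ContinuousAt (fun t => ‖c t‖) 0 := hcd.continuousAt.norm
    have : ‖c 0‖ < rad A Bi := by rw [hc0]; exact ha
    exact hcc.eventually_lt_const this
  -- the differentiated equation
  have hPd : HasDerivAt (fun t => Pm A (c t)) Y 0 := by
    simp only [hP]
    have := ((hasDerivAt_id (0 : ℝ)).smul_const Y).const_add (Pm A a)
    simpa using this
  have hPsd : HasDerivAt (fun t => (Pm A (c t))ᴴ) Y 0 := by
    have h1 : HasDerivAt (fun t => (Pm A (c t))ᴴ) Yᴴ 0 :=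
      (starL' (A := Mt n) ℝ).toContinuousLinearMap.hasFDerivAt.comp_hasDerivAt (0 : ℝ) hPd
    rwa [hYh] at h1
  have hAd : HasDerivAt (fun t => Am A b (c t)) (-((2 : ℝ) • Y)) 0 := by
    simp only [hAm]
    have h1 : HasDerivAt (fun t : ℝ => 2 * t) 2 0 := by
      simpa using (hasDerivAt_id (0 : ℝ)).const_mul 2
    exact (h1.smul_const Y).const_sub (Am A b a)
  have hEeq : Y * X ^ 2 + Pm A a * (E * X + X * E) - 2 * (Y * X) + Am A b a * E + Y = 0 := by
    have h1 : HasDerivAt (fun t => Pm A (c t) * (Xt t * Xt t) + Am A b (c t) * Xt t +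
        (Pm A (c t))ᴴ)
        ((Y * (Xt 0 * Xt 0) + Pm A (c 0) * (E * Xt 0 + Xt 0 * E)) +
          (-((2 : ℝ) • Y) * Xt 0 + Am A b (c 0) * E) + Y) 0 :=
      ((hPd.mul (hXd.mul hXd)).add (hAd.mul hXd)).add hPsd
    have h2 : (fun t => Pm A (c t) * (Xt t * Xt t) + Am A b (c t) * Xt t + (Pm A (c t))ᴴ)
        =ᶠ[𝓝 (0 : ℝ)] fun _ => 0 := by
      filter_upwards [hnear] with t ht
      have h3 := (sol_isSol hB ht hB').2
      rw [sq] at h3
      exact h3
    have h4 := (h1.congr_of_eventuallyEq h2.symm).unique (hasDerivAt_const (0 : ℝ) (0 : Mt n))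
    rw [hX0, hc0] at h4
    rw [← h4, sq, two_smul]
    noncomm_ring
  have hEval : E = -(Ci * KY * (1 - X) ^ 2) := alg_E hX hC hCh hCi hXs.2 hEeq hKY
  -- the quadratic forms
  have hMd : ∀ j, HasDerivAt (fun t => qf (Mj A b j (c t), V)) 0 0 := by
    intro j
    obtain ⟨Kj, Q, hKj, hQj, hre⟩ := hQ j
    have hKj' : Ksum (A j) X = Kj := Ksum_unique hX hKj
    have hKh : Kjᴴ = Kj := by rw [← hKj']; exact Ksum_star hX (hA j)
    set L : Mt n := fderiv ℝ (fun Y => Ksum (A j) Y) X E with hL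
    have hKd : HasDerivAt (fun t => Ksum (A j) (Xt t)) L 0 := by
      have h1 : HasFDerivAt (fun Y => Ksum (A j) Y) (fderiv ℝ (fun Y => Ksum (A j) Y) X) (Xt 0) := by
        rw [hX0]
        exact ((Ksum_contDiffAt (A j) hX).differentiableAt one_ne_zero).hasFDerivAt
      exact h1.comp_hasDerivAt (0 : ℝ) hXd
    have hLeq : L - Xᴴ * L * X = Eᴴ * Kj * X + Xᴴ * Kj * E := by
      have h1 : HasDerivAt (fun t => Ksum (A j) (Xt t) - (Xt t)ᴴ * Ksum (A j) (Xt t) * Xt t)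
          (L - ((Eᴴ * Ksum (A j) (Xt 0) + (Xt 0)ᴴ * L) * Xt 0 +
            (Xt 0)ᴴ * Ksum (A j) (Xt 0) * E)) 0 :=
        hKd.sub ((hXsd.mul hKd).mul hXd)
      have h2 : (fun t => Ksum (A j) (Xt t) - (Xt t)ᴴ * Ksum (A j) (Xt t) * Xt t)
          =ᶠ[𝓝 (0 : ℝ)] fun _ => A j := by
        filter_upwards [hnear] with t ht
        exact Ksum_eq (A j) (sol_isSol hB ht hB').1
      have h4 := (h1.congr_of_eventuallyEq h2.symm).unique (hasDerivAt_const (0 : ℝ) (A j))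
      rw [hX0, hKj'] at h4
      have h5 : L - Xᴴ * L * X - (Eᴴ * Kj * X + Xᴴ * Kj * E) = 0 := by
        rw [← h4]
        noncomm_ring
      exact sub_eq_zero.1 h5
    have hT := alg_T hX hKh hEval rfl hQj hLeq
    have h1 : HasDerivAt (fun t => Mj A b j (c t))
        ((-Eᴴ * Ksum (A j) (Xt 0) + (1 - (Xt 0)ᴴ) * L) * (1 - Xt 0) +
          (1 - (Xt 0)ᴴ) * Ksum (A j) (Xt 0) * (-E)) 0 :=
      ((hXsd.const_sub 1).mul hKd).mul (hXd.const_sub 1)
    have h2 := qf_hasDerivAt h1 V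
    have h3 : qf ((-Eᴴ * Ksum (A j) (Xt 0) + (1 - (Xt 0)ᴴ) * L) * (1 - Xt 0) +
          (1 - (Xt 0)ᴴ) * Ksum (A j) (Xt 0) * (-E), V) = 0 := by
      rw [hX0, hKj']
      have e1 : (-Eᴴ * Kj + (1 - Xᴴ) * L) * (1 - X) + (1 - Xᴴ) * Kj * (-E) =
          (1 - Xᴴ) * L * (1 - X) - Eᴴ * Kj * (1 - X) - (1 - Xᴴ) * Kj * E := by noncomm_ring
      rw [e1, hT]
      unfold qf
      simp only
      rw [add_mulVec, dotProduct_add, Complex.add_re, re_quad_star, quad_conj, hre, add_zero]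
    rwa [h3] at h2
  -- conclusion
  have hdiff : HasFDerivAt (jetMap A b) (fderiv ℝ (jetMap A b) (a, V)) (a, V) :=
    ((jetMap_contDiffAt hB hB' ha V).differentiableAt one_ne_zero).hasFDerivAt
  have hcurve : HasDerivAt (fun t => (c t, V)) (κ, (0 : Fin n → ℂ)) 0 :=
    hcd.prodMk (hasDerivAt_const (0 : ℝ) V)
  have h1 : HasDerivAt (fun t => jetMap A b (c t, V)) (fderiv ℝ (jetMap A b) (a, V) (κ, 0)) 0 := by
    have h2 : HasFDerivAt (jetMap A b) (fderiv ℝ (jetMap A b) (a, V))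
        ((fun t => (c t, V)) (0 : ℝ)) := by
      simp only [hc0]
      exact hdiff
    exact h2.comp_hasDerivAt (0 : ℝ) hcurve
  have h2 : HasDerivAt (fun t => jetMap A b (c t, V))
      ((0 : Fin n → ℂ), (0 : Fin d → ℝ), (0 : Fin d → ℝ)) 0 := by
    have e : (fun t => jetMap A b (c t, V)) = fun t =>
        (V, (fun j => qf (Mj A b j (c t), V)), fun j => (c t j).im) := by
      funext t
      exact jetMap_eq A b (c t, V)
    rw [e]
    refine (hasDerivAt_const (0 : ℝ) V).prodMk (HasDerivAt.prodMk ?_ ?_)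
    · exact hasDerivAt_pi.2 (fun j => hMd j)
    · have e2 : (fun t => fun j => (c t j).im) = fun _ : ℝ => fun j => (a j).im := by
        funext t j
        simp [hc, hκ]
      rw [e2]
      exact hasDerivAt_const (0 : ℝ) _
  exact h1.unique h2

end

end Pool.Agent.Work.MP_a09116_an
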