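import Pool.Agent.Work.MP_a09116_an.Deriv

set_option autoImplicit false
set_option linter.unusedSectionVars false

/-!
The explicit example.
-/

namespace Pool.Agent.Work.MP_a09116_an

open scoped Matrix.Norms.L2Operator ContDiff
open Matrix Filter Topology Complex

/-- The matrices of the quadric. -/
def AA : Fin 5 → Mt 6 :=
  ![!![0,0,0,1,0,0; 0,0,0,0,1,0; 0,0,1,0,0,0; 1,0,0,0,0,0; 0,1,0,0,0,0; 0,0,0,0,0,1],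
    !![0,0,0,0,0,0; 0,0,0,0,0,0; 0,0,0,0,-I,0; 0,0,0,0,0,0; 0,0,I,0,0,0; 0,0,0,0,0,1],
    !![0,0,1,0,0,0; 0,0,0,0,0,0; 1,0,0,0,0,0; 0,0,0,0,0,0; 0,0,0,0,0,0; 0,0,0,0,0,0],
    !![0,0,I,0,0,0; 0,0,0,0,0,0; -I,0,0,0,0,0; 0,0,0,0,0,0; 0,0,0,0,0,0; 0,0,0,0,0,0],
    !![0,0,0,0,0,0; 0,0,1,0,0,0; 0,1,0,0,0,0; 0,0,0,0,0,0; 0,0,0,0,0,0; 0,0,0,0,0,0]]

/-- The vector `b`. -/
def bb : Fin 5 → ℝ := ![1, 0, 0, 0, 0]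

/-- The parameter `a`. -/
noncomputable def aa (ε : ℝ) : Fin 5 → ℂ := ![0, ε * I, 0, 0, 0]

/-- The matrix `X`. -/
noncomputable def X0 (ε ψ : ℝ) : Mt 6 :=
  !![0,0,0,0,0,0; 0,0,-(ε : ℂ),0,0,0; 0,0,0,0,(ε : ℂ),0; 0,0,0,0,0,0; 0,0,0,0,0,0; 0,0,0,0,0,ψ * I]

/-- The adjoint of `X`. -/
noncomputable def X0s (ε ψ : ℝ) : Mt 6 :=
  !![0,0,0,0,0,0; 0,0,0,0,0,0; 0,-(ε : ℂ),0,0,0,0; 0,0,0,0,0,0; 0,0,(ε : ℂ),0,0,0; 0,0,0,0,0,-(ψ * I)]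

/-- The matrix `C`. -/
noncomputable def C0 (ε ψ : ℝ) : Mt 6 :=
  !![0,0,0,1,0,0; 0,0,0,0,1,0; 0,0,1,0,0,0; 1,0,0,0,0,0; 0,1,0,0,-(ε : ℂ) ^ 2,0;
    0,0,0,0,0,1 - ε * ψ]

/-- The inverse of `C`. -/
noncomputable def Ci0 (ε ψ : ℝ) : Mt 6 :=
  !![0,0,0,1,0,0; 0,(ε : ℂ) ^ 2,0,0,1,0; 0,0,1,0,0,0; 1,0,0,0,0,0; 0,1,0,0,0,0;
    0,0,0,0,0,1 + (ψ : ℂ) ^ 2]

/-- The matrices `K_j`. -/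
noncomputable def KK (ε γ : ℝ) : Fin 5 → Mt 6 :=
  ![!![0,0,0,1,0,0; 0,0,0,0,1,0; 0,0,1,0,0,0; 1,0,0,0,0,0; 0,1,0,0,(ε : ℂ) ^ 2,0; 0,0,0,0,0,(γ : ℂ)],
    !![0,0,0,0,0,0; 0,0,0,0,0,0; 0,0,0,0,-I,0; 0,0,0,0,0,0; 0,0,I,0,0,0; 0,0,0,0,0,(γ : ℂ)],
    !![0,0,1,0,0,0; 0,0,0,0,0,0; 1,0,0,0,0,0; 0,0,0,0,0,0; 0,0,0,0,0,0; 0,0,0,0,0,0],
    !![0,0,I,0,0,0; 0,0,0,0,0,0; -I,0,0,0,0,0; 0,0,0,0,0,0; 0,0,0,0,0,0; 0,0,0,0,0,0],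
    !![0,0,0,0,0,0; 0,0,1,0,0,0; 0,1,0,0,-(ε : ℂ) ^ 2,0; 0,0,0,0,0,0; 0,0,-(ε : ℂ) ^ 2,0,0,0;
      0,0,0,0,0,0]]

/-- The matrix `K_Y`. -/
noncomputable def KY0 (ε x₂ x₃ x₄ : ℝ) : Mt 6 :=
  !![0,0,x₂ + x₃ * I,0,0,0; 0,0,(x₄ : ℂ),0,0,0; x₂ - x₃ * I,x₄,0,0,-(ε : ℂ) ^ 2 * x₄,0;
    0,0,0,0,0,0; 0,0,-(ε : ℂ) ^ 2 * x₄,0,0,0; 0,0,0,0,0,0]

lemma AA_herm (j : Fin 5) : (AA j)ᴴ = AA j := by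
  ext p q
  fin_cases j <;> fin_cases p <;> fin_cases q <;> simp [AA]

lemma X0_star (ε ψ : ℝ) : (X0 ε ψ)ᴴ = X0s ε ψ := by
  ext p q
  fin_cases p <;> fin_cases q <;> simp [X0, X0s]

lemma C0_star (ε ψ : ℝ) : (C0 ε ψ)ᴴ = C0 ε ψ := by
  ext p q
  fin_cases p <;> fin_cases q <;> simp [C0]

lemma Bm_eq : Bm AA bb = AA 0 := by
  unfold Bm
  rw [Fin.sum_univ_five]
  simp [bb]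

lemma AA0_sq : AA 0 * AA 0 = 1 := by
  ext p q
  rw [mul_apply, Fin.sum_univ_six]
  fin_cases p <;> fin_cases q <;> simp [AA, one_apply]

lemma Am_aa (ε : ℝ) : Am AA bb (aa ε) = AA 0 := by
  unfold Am
  rw [Fin.sum_univ_five]
  simp [bb, aa]

lemma Pm_aa (ε : ℝ) : Pm AA (aa ε) = (ε * I : ℂ) • AA 1 := by
  unfold Pm
  rw [Fin.sum_univ_five]
  simp [aa]

end Pool.Agent.Work.MP_a09116_an
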