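import Pool.Agent.Work.MP_a09116_an.Example

set_option autoImplicit false
set_option linter.unusedSectionVars false

/-!
The explicit example: identities.
-/

namespace Pool.Agent.Work.MP_a09116_an

open scoped Matrix.Norms.L2Operator ContDiff
open Matrix Filter Topology Complex

/-- The square of `X`. -/
noncomputable def X02 (ε ψ : ℝ) : Mt 6 :=
  !![0,0,0,0,0,0; 0,0,0,0,-(ε : ℂ) ^ 2,0; 0,0,0,0,0,0; 0,0,0,0,0,0; 0,0,0,0,0,0; 0,0,0,0,0,-(ψ : ℂ) ^ 2]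

lemma X0_sq (ε ψ : ℝ) : X0 ε ψ * X0 ε ψ = X02 ε ψ := by
  ext p q
  rw [mul_apply, Fin.sum_univ_six]
  fin_cases p <;> fin_cases q <;> simp [X0, X02]
  · ring
  · ring_nf
    simp

lemma sol_eqn {ε ψ : ℝ} (h : ε * (1 + ψ ^ 2) = ψ) :
    Pm AA (aa ε) * X0 ε ψ ^ 2 + Am AA bb (aa ε) * X0 ε ψ + (Pm AA (aa ε))ᴴ = 0 := by
  have hc : (ε : ℂ) * (1 + (ψ : ℂ) ^ 2) = ψ := by exact_mod_cast h
  rw [sq, X0_sq, Am_aa, Pm_aa]
  ext p q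
  rw [Matrix.add_apply, Matrix.add_apply, mul_apply, mul_apply, Fin.sum_univ_six, Fin.sum_univ_six]
  fin_cases p <;> fin_cases q <;> simp [X0, X02, AA]
  · linear_combination (ε : ℂ) * I_sq
  · linear_combination (-(ε : ℂ)) * I_sq
  · linear_combination (-I) * hc

lemma C0_eq (ε ψ : ℝ) : C0 ε ψ = Am AA bb (aa ε) + Pm AA (aa ε) * X0 ε ψ := by
  rw [Am_aa, Pm_aa]
  ext p q
  rw [Matrix.add_apply, mul_apply, Fin.sum_univ_six]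
  fin_cases p <;> fin_cases q <;> simp [X0, AA, C0]
  · ring_nf
    simp
  · ring_nf
    simp
    ring

lemma Ci0_mul {ε ψ : ℝ} (h : ε * (1 + ψ ^ 2) = ψ) : Ci0 ε ψ * C0 ε ψ = 1 := by
  have hc : (ε : ℂ) * (1 + (ψ : ℂ) ^ 2) = ψ := by exact_mod_cast h
  ext p q
  rw [mul_apply, Fin.sum_univ_six]
  fin_cases p <;> fin_cases q <;> simp [C0, Ci0, one_apply]
  linear_combination (-(ψ : ℂ)) * hc

lemma KK_eq {ε ψ γ : ℝ} (hγ : γ * (1 - ψ ^ 2) = 1) (j : Fin 5) :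
    KK ε γ j - (X0 ε ψ)ᴴ * KK ε γ j * X0 ε ψ = AA j := by
  have hc : (γ : ℂ) * (1 - (ψ : ℂ) ^ 2) = 1 := by exact_mod_cast hγ
  rw [X0_star]
  ext p q
  rw [Matrix.sub_apply, mul_apply, Fin.sum_univ_six]
  simp only [mul_apply, Fin.sum_univ_six]
  fin_cases j <;> fin_cases p <;> fin_cases q <;> simp [X0, X0s, AA, KK]
  · ring
  · linear_combination hc + (γ : ℂ) * (ψ : ℂ) ^ 2 * I_sq
  · linear_combination hc + (γ : ℂ) * (ψ : ℂ) ^ 2 * I_sq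
  · ring
  · ring

lemma KY_eq (ε ψ x₂ x₃ x₄ : ℝ) :
    KY0 ε x₂ x₃ x₄ - (X0 ε ψ)ᴴ * KY0 ε x₂ x₃ x₄ * X0 ε ψ =
      Pm AA (fun j => ((![0, 0, x₂, x₃, x₄] : Fin 5 → ℝ) j : ℂ)) := by
  rw [X0_star]
  unfold Pm
  rw [Fin.sum_univ_five]
  ext p q
  rw [Matrix.sub_apply, mul_apply, Fin.sum_univ_six]
  simp only [mul_apply, Fin.sum_univ_six]
  fin_cases p <;> fin_cases q <;> simp [X0, X0s, AA, KY0]
  all_goals ring

lemma KY_X3 (ε ψ x₂ x₃ x₄ : ℝ) : KY0 ε x₂ x₃ x₄ * (X0 ε ψ * X02 ε ψ) = 0 := by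
  ext p q
  rw [mul_apply, Fin.sum_univ_six]
  simp only [mul_apply, Fin.sum_univ_six]
  fin_cases p <;> fin_cases q <;> simp [X0, X02, KY0]

end Pool.Agent.Work.MP_a09116_an
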