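import Pool.Agent.Work.MP_a09116_an.Example2

set_option autoImplicit false
set_option linter.unusedSectionVars false

/-!
The explicit example: the kernel vector.
-/

namespace Pool.Agent.Work.MP_a09116_an

open scoped Matrix.Norms.L2Operator ContDiff
open Matrix Filter Topology Complex

lemma exists_x (p q : ℂ) : ∃ x₂ x₃ x₄ : ℝ, ¬ (x₂ = 0 ∧ x₃ = 0 ∧ x₄ = 0) ∧
    ((x₂ : ℂ) - x₃ * I) * p + x₄ * q = 0 := by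
  by_cases hp : p = 0
  · refine ⟨1, 0, 0, fun h => one_ne_zero h.1, ?_⟩
    rw [hp]; simp
  · refine ⟨(-q / p).re, -(-q / p).im, 1, fun h => one_ne_zero h.2.2, ?_⟩
    have h1 : (((-q / p).re : ℂ) - ((-(-q / p).im : ℝ) : ℂ) * I) = -q / p := by
      push_cast
      rw [neg_mul, sub_neg_eq_add, Complex.re_add_im]
    rw [h1]
    field_simp
    simp

lemma CiKY_mulVec (ε ψ x₂ x₃ x₄ : ℝ) (y : Fin 6 → ℂ) :
    Ci0 ε ψ *ᵥ (KY0 ε x₂ x₃ x₄ *ᵥ y) =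
      ![0, 0, (x₂ - x₃ * I) * y 0 + x₄ * y 1 - (ε : ℂ) ^ 2 * x₄ * y 4,
        (x₂ + x₃ * I) * y 2, x₄ * y 2, 0] := by
  ext i
  simp only [mulVec, dotProduct, Fin.sum_univ_six]
  fin_cases i <;> simp [Ci0, KY0]
  all_goals ring

lemma X0_mulVec (ε ψ : ℝ) (y : Fin 6 → ℂ) :
    X0 ε ψ *ᵥ y = ![0, -(ε : ℂ) * y 2, (ε : ℂ) * y 4, 0, 0, ψ * I * y 5] := by
  ext i
  simp only [mulVec, dotProduct, Fin.sum_univ_six]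
  fin_cases i <;> simp [X0]

lemma X02_mulVec (ε ψ : ℝ) (y : Fin 6 → ℂ) :
    X02 ε ψ *ᵥ y = ![0, -(ε : ℂ) ^ 2 * y 4, 0, 0, 0, -(ψ : ℂ) ^ 2 * y 5] := by
  ext i
  simp only [mulVec, dotProduct, Fin.sum_univ_six]
  fin_cases i <;> simp [X02]

/-- The quadratic form of `K_j Ci KY`. -/
lemma quad_G (ε ψ γ x₂ x₃ x₄ : ℝ) (y : Fin 6 → ℂ) (j : Fin 5) :
    star y ⬝ᵥ ((KK ε γ j * Ci0 ε ψ * KY0 ε x₂ x₃ x₄) *ᵥ y) =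
      (![star (y 0) * ((x₂ + x₃ * I) * y 2) + star (y 1) * (x₄ * y 2) +
          star (y 2) * ((x₂ - x₃ * I) * y 0 + x₄ * y 1 - (ε : ℂ) ^ 2 * x₄ * y 4) +
          star (y 4) * ((ε : ℂ) ^ 2 * (x₄ * y 2)),
        star (y 2) * (-I * (x₄ * y 2)) +
          star (y 4) * (I * ((x₂ - x₃ * I) * y 0 + x₄ * y 1 - (ε : ℂ) ^ 2 * x₄ * y 4)),
        star (y 0) * ((x₂ - x₃ * I) * y 0 + x₄ * y 1 - (ε : ℂ) ^ 2 * x₄ * y 4),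
        star (y 0) * (I * ((x₂ - x₃ * I) * y 0 + x₄ * y 1 - (ε : ℂ) ^ 2 * x₄ * y 4)),
        star (y 2) * (-(ε : ℂ) ^ 2 * (x₄ * y 2)) +
          star (y 1) * ((x₂ - x₃ * I) * y 0 + x₄ * y 1 - (ε : ℂ) ^ 2 * x₄ * y 4) +
          star (y 4) * (-(ε : ℂ) ^ 2 *
            ((x₂ - x₃ * I) * y 0 + x₄ * y 1 - (ε : ℂ) ^ 2 * x₄ * y 4))] : Fin 5 → ℂ) j := by
  rw [← mulVec_mulVec, ← mulVec_mulVec, CiKY_mulVec]
  simp only [mulVec, dotProduct, Fin.sum_univ_six]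
  fin_cases j <;> simp [KK]
  all_goals ring

/-- The matrix solving the Stein equation. -/
noncomputable def QQ (ε ψ γ x₂ x₃ x₄ : ℝ) (j : Fin 5) : Mt 6 :=
  KK ε γ j * Ci0 ε ψ * KY0 ε x₂ x₃ x₄ +
    (X0 ε ψ)ᴴ * (KK ε γ j * Ci0 ε ψ * KY0 ε x₂ x₃ x₄) * X0 ε ψ +
    (X02 ε ψ)ᴴ * (KK ε γ j * Ci0 ε ψ * KY0 ε x₂ x₃ x₄) * X02 ε ψ

lemma QQ_eq (ε ψ γ x₂ x₃ x₄ : ℝ) (j : Fin 5) :
    QQ ε ψ γ x₂ x₃ x₄ j - (X0 ε ψ)ᴴ * QQ ε ψ γ x₂ x₃ x₄ j * X0 ε ψ =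
      KK ε γ j * Ci0 ε ψ * KY0 ε x₂ x₃ x₄ := by
  unfold QQ
  set G : Mt 6 := KK ε γ j * Ci0 ε ψ * KY0 ε x₂ x₃ x₄ with hG
  have h1 : G * (X02 ε ψ * X0 ε ψ) = 0 := by
    have h2 : X02 ε ψ * X0 ε ψ = X0 ε ψ * X02 ε ψ := by
      rw [← X0_sq, mul_assoc]
    rw [h2, hG, mul_assoc, mul_assoc, ← mul_assoc (KY0 ε x₂ x₃ x₄), mul_assoc (KY0 ε x₂ x₃ x₄),
      KY_X3]
    simp
  have h3 : (X02 ε ψ)ᴴ = (X0 ε ψ)ᴴ * (X0 ε ψ)ᴴ := by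
    rw [← X0_sq, conjTranspose_mul]
  have h4 : (X0 ε ψ)ᴴ * ((X0 ε ψ)ᴴ * G * X0 ε ψ) * X0 ε ψ = (X02 ε ψ)ᴴ * G * X02 ε ψ := by
    rw [h3, ← X0_sq]
    noncomm_ring
  have h5 : (X0 ε ψ)ᴴ * ((X02 ε ψ)ᴴ * G * X02 ε ψ) * X0 ε ψ = 0 := by
    have : (X0 ε ψ)ᴴ * ((X02 ε ψ)ᴴ * G * X02 ε ψ) * X0 ε ψ =
        (X0 ε ψ)ᴴ * (X02 ε ψ)ᴴ * (G * (X02 ε ψ * X0 ε ψ)) := by noncomm_ring
    rw [this, h1, mul_zero]
  have h6 : (X0 ε ψ)ᴴ * (G + (X0 ε ψ)ᴴ * G * X0 ε ψ + (X02 ε ψ)ᴴ * G * X02 ε ψ) * X0 ε ψ =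
      (X0 ε ψ)ᴴ * G * X0 ε ψ + (X0 ε ψ)ᴴ * ((X0 ε ψ)ᴴ * G * X0 ε ψ) * X0 ε ψ +
        (X0 ε ψ)ᴴ * ((X02 ε ψ)ᴴ * G * X02 ε ψ) * X0 ε ψ := by noncomm_ring
  rw [h6, h4, h5]
  abel

lemma QQ_quad {ε ψ γ x₂ x₃ x₄ : ℝ} {W : Fin 6 → ℂ}
    (h : ((x₂ : ℂ) - x₃ * I) * W 0 + x₄ * (W 1 - (ε : ℂ) ^ 2 * W 4) = 0) (j : Fin 5) :
    (star W ⬝ᵥ (QQ ε ψ γ x₂ x₃ x₄ j *ᵥ W)).re = 0 := by
  unfold QQ
  rw [add_mulVec, add_mulVec, dotProduct_add, dotProduct_add, quad_conj, quad_conj, quad_G,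
    quad_G, quad_G, X0_mulVec, X02_mulVec]
  have hre := congrArg Complex.re h
  have him := congrArg Complex.im h
  simp at hre him
  simp only [← Complex.ofReal_pow, Complex.ofReal_re, Complex.ofReal_im] at hre him
  fin_cases j
  · simp
    simp only [← Complex.ofReal_pow, Complex.ofReal_re, Complex.ofReal_im]
    linear_combination (2 * (W 2).re) * hre + (2 * (W 2).im) * him
  · simp
    simp only [← Complex.ofReal_pow, Complex.ofReal_re, Complex.ofReal_im]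
    linear_combination (W 4).im * hre - (W 4).re * him
  · simp
    simp only [← Complex.ofReal_pow, Complex.ofReal_re, Complex.ofReal_im]
    linear_combination (W 0).re * hre + (W 0).im * him
  · simp
    simp only [← Complex.ofReal_pow, Complex.ofReal_re, Complex.ofReal_im]
    linear_combination (W 0).im * hre - (W 0).re * him
  · simp
    simp only [← Complex.ofReal_pow, Complex.ofReal_re, Complex.ofReal_im]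
    linear_combination ((W 1).re - ε ^ 2 * (W 4).re) * hre + ((W 1).im - ε ^ 2 * (W 4).im) * him

end Pool.Agent.Work.MP_a09116_an
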