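import Pool.Agent.Work.MP_a09116_an.Nondeg

set_option autoImplicit false
set_option linter.unusedSectionVars false

/-!
The final statement.
-/

namespace Pool.Agent.Work.MP_a09116_an

open scoped Matrix.Norms.L2Operator ContDiff
open Matrix Filter Topology Complex

lemma X0_decomp (ε ψ : ℝ) : X0 ε ψ = (ε : ℂ) • X0 1 0 + (ψ : ℂ) • X0 0 1 := by
  ext p q
  fin_cases p <;> fin_cases q <;> simp [X0]

lemma norm_X0_le {ε ψ : ℝ} (h0 : 0 ≤ ε) (h1 : ε ≤ ψ) :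
    ‖X0 ε ψ‖ ≤ ψ * (‖X0 1 0‖ + ‖X0 0 1‖) := by
  rw [X0_decomp]
  refine (norm_add_le _ _).trans ?_
  rw [norm_smul, norm_smul, Complex.norm_real, Complex.norm_real, Real.norm_eq_abs,
    Real.norm_eq_abs, abs_of_nonneg h0, abs_of_nonneg (h0.trans h1), mul_add]
  gcongr

lemma norm_aa {ε : ℝ} (h0 : 0 ≤ ε) : ‖aa ε‖ ≤ ε := by
  rw [pi_norm_le_iff_of_nonneg h0]
  intro j
  fin_cases j <;> simp [aa, h0]
  rw [abs_of_nonneg h0]

theorem main_theorem : ∃ (n d : ℕ) (A : Fin d → Matrix (Fin n) (Fin n) ℂ) (b : Fin d → ℝ),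
    (∀ j, (A j).IsHermitian) ∧ IsUnit (∑ j, (b j : ℂ) • A j) ∧
    ∃ r : ℝ, 0 < r ∧ (∀ a : Fin d → ℂ, ‖a‖ < r → ∃! X, IsSol A b a X) ∧
      ∀ δ : ℝ, 0 < δ → ∃ a : Fin d → ℂ, ‖a‖ < r ∧ ‖a‖ < δ ∧ StronglyNondegenerate A b a ∧
        ∀ V : Fin n → ℂ, ContDiffAt ℝ 1 (jetMap A b) (a, V) ∧
          ¬ Function.Injective (fderiv ℝ (jetMap A b) (a, V)) := by
  have hB : AA 0 * Bm AA bb = 1 := by rw [Bm_eq]; exact AA0_sq
  have hB' : Bm AA bb * AA 0 = 1 := by rw [Bm_eq]; exact AA0_sq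
  refine ⟨6, 5, AA, bb, AA_herm, ?_, rad AA (AA 0), rad_pos _ _, ?_, ?_⟩
  · exact ⟨⟨Bm AA bb, AA 0, hB', hB⟩, rfl⟩
  · intro a ha
    exact existsUnique_sol hB ha hB'
  intro δ hδ
  have hrad := rad_pos AA (AA 0)
  set c : ℝ := ‖X0 1 0‖ + ‖X0 0 1‖ with hc
  have hc0 : 0 ≤ c := by positivity
  obtain ⟨ψ, hψ0, hψ1, hψ2, hψ3, hψ4⟩ : ∃ ψ : ℝ, 0 < ψ ∧ ψ < 1 ∧ ψ < rad AA (AA 0) ∧ ψ < δ ∧
      ψ * c < 1 := by
    set m : ℝ := min (min 1 (rad AA (AA 0))) (min δ (1 / (c + 1))) with hm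
    have hm0 : 0 < m := by
      have : 0 < 1 / (c + 1) := by positivity
      exact lt_min (lt_min one_pos hrad) (lt_min hδ this)
    refine ⟨m / 2, by positivity, ?_, ?_, ?_, ?_⟩
    · have : m ≤ 1 := (min_le_left _ _).trans (min_le_left _ _)
      linarith
    · have : m ≤ rad AA (AA 0) := (min_le_left _ _).trans (min_le_right _ _)
      linarith
    · have : m ≤ δ := (min_le_right _ _).trans (min_le_left _ _)
      linarith
    · have h1 : m ≤ 1 / (c + 1) := (min_le_right _ _).trans (min_le_right _ _)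
      rw [le_div_iff₀ (by positivity)] at h1
      nlinarith
  set ε : ℝ := ψ / (1 + ψ ^ 2) with hε
  have hε0 : 0 < ε := by positivity
  have hεψ : ε ≤ ψ := div_le_self hψ0.le (by nlinarith [sq_nonneg ψ])
  have hεeq : ε * (1 + ψ ^ 2) = ψ := by
    rw [hε]; field_simp
  set γ : ℝ := 1 / (1 - ψ ^ 2) with hγ
  have h1ψ : 0 < 1 - ψ ^ 2 := by nlinarith
  have hγeq : γ * (1 - ψ ^ 2) = 1 := by
    rw [hγ]; field_simp
  have hγ0 : 0 < γ := by positivity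
  have hna : ‖aa ε‖ ≤ ε := norm_aa hε0.le
  have ha : ‖aa ε‖ < rad AA (AA 0) := by linarith
  have hXs : IsSol AA bb (aa ε) (X0 ε ψ) := by
    refine ⟨?_, sol_eqn hεeq⟩
    have := norm_X0_le hε0.le hεψ
    linarith
  have hsolX : sol AA bb (aa ε) = X0 ε ψ := sol_eq hB ha hB' hXs
  refine ⟨aa ε, ha, by linarith, ⟨V0, ?_⟩, fun V => ⟨jetMap_contDiffAt hB hB' ha V, ?_⟩⟩
  · rw [nondeg_eq (by rw [abs_of_pos hψ0]; exact hψ1) hγeq hsolX]
    exact NM_posDef hε0.ne' hγ0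
  · intro hinj
    set W : Fin 6 → ℂ := (1 - X0 ε ψ) ^ 2 *ᵥ V with hW
    obtain ⟨x₂, x₃, x₄, hx, hxW⟩ := exists_x (W 0) (W 1 - (ε : ℂ) ^ 2 * W 4)
    have hker := fderiv_jetMap_eq_zero hB hB' ha AA_herm ![0, 0, x₂, x₃, x₄] hXs
      (C0_eq ε ψ) (C0_star ε ψ) (Ci0_mul hεeq) (KY_eq ε ψ x₂ x₃ x₄) V (fun j =>
        ⟨KK ε γ j, QQ ε ψ γ x₂ x₃ x₄ j, KK_eq hγeq j, QQ_eq ε ψ γ x₂ x₃ x₄ j, QQ_quad hxW j⟩)
    have h0 := hinj (hker.trans (map_zero (fderiv ℝ (jetMap AA bb) (aa ε, V))).symm)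
    have h1 := congrArg Prod.fst h0
    apply hx
    refine ⟨?_, ?_, ?_⟩
    · have := congrFun h1 2
      simpa using this
    · have := congrFun h1 3
      simpa using this
    · have := congrFun h1 4
      simpa using this

end Pool.Agent.Work.MP_a09116_an
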