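import Pool.Agent.Work.MP_a09116_an.Example3

set_option autoImplicit false
set_option linter.unusedSectionVars false

/-!
The explicit example: strong nondegeneracy.
-/

namespace Pool.Agent.Work.MP_a09116_an

open scoped Matrix.Norms.L2Operator ContDiff
open Matrix Filter Topology Complex

/-- The vector `V`. -/
def V0 : Fin 6 → ℂ := ![1, 0, 1, 5, 0, 1]

lemma AA_mulVec (j : Fin 5) (y : Fin 6 → ℂ) :
    AA j *ᵥ y = (![![y 3, y 4, y 2, y 0, y 1, y 5], ![0, 0, -I * y 4, 0, I * y 2, y 5],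
      ![y 2, 0, y 0, 0, 0, 0], ![I * y 2, 0, -I * y 0, 0, 0, 0], ![0, y 2, y 1, 0, 0, 0]] :
        Fin 5 → Fin 6 → ℂ) j := by
  ext i
  simp only [mulVec, dotProduct, Fin.sum_univ_six]
  fin_cases j <;> fin_cases i <;> simp [AA]

lemma quad_AA (j s : Fin 5) (y : Fin 6 → ℂ) :
    star y ⬝ᵥ ((AA j * AA 0 * AA s) *ᵥ y) =
      star (AA j *ᵥ y) ⬝ᵥ (AA 0 *ᵥ (AA s *ᵥ y)) := by
  rw [← mulVec_mulVec, ← mulVec_mulVec, dotProduct_mulVec, star_mulVec, AA_herm]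

/-- The entries of the last coordinate. -/
def ge : Fin 5 → ℂ := ![1, 1, 0, 0, 0]

lemma quad_e5 (j s : Fin 5) (z : ℂ) :
    star (![0, 0, 0, 0, 0, z] : Fin 6 → ℂ) ⬝ᵥ ((AA j * AA 0 * AA s) *ᵥ ![0, 0, 0, 0, 0, z]) =
      ge j * ge s * (star z * z) := by
  rw [quad_AA, AA_mulVec, AA_mulVec, AA_mulVec]
  fin_cases j <;> fin_cases s <;> simp [dotProduct, Fin.sum_univ_six, ge]

lemma V1_eq (ε ψ : ℝ) : X0 ε ψ *ᵥ V0 = ![0, -(ε : ℂ), 0, 0, 0, ψ * I] := by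
  rw [X0_mulVec]
  ext i
  fin_cases i <;> simp [V0]

lemma Vr_eq (ε ψ : ℝ) (r : ℕ) :
    X0 ε ψ ^ (r + 2) *ᵥ V0 = ![0, 0, 0, 0, 0, (ψ * I) ^ (r + 2)] := by
  induction r with
  | zero =>
    rw [zero_add, sq, ← mulVec_mulVec, V1_eq, X0_mulVec]
    ext i
    fin_cases i <;> simp
    ring
  | succ r ih =>
    rw [show r + 1 + 2 = (r + 2) + 1 by ring, pow_succ', ← mulVec_mulVec, ih, X0_mulVec]
    ext i
    fin_cases i <;> simp
    ring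

lemma quad_hasSum {ε ψ γ : ℝ} (hψ : |ψ| < 1) (hγ : γ * (1 - ψ ^ 2) = 1) (j s : Fin 5) :
    HasSum (fun r : ℕ => star V0 ⬝ᵥ (((X0 ε ψ)ᴴ ^ r * AA j * (AA 0)⁻¹ * AA s *
      (X0 ε ψ) ^ r) *ᵥ V0))
      (ge j * ge s * ((ψ : ℂ) ^ 4 * γ) +
        (star V0 ⬝ᵥ ((AA j * AA 0 * AA s) *ᵥ V0) +
          star (![0, -(ε : ℂ), 0, 0, 0, ψ * I] : Fin 6 → ℂ) ⬝ᵥ
            ((AA j * AA 0 * AA s) *ᵥ ![0, -(ε : ℂ), 0, 0, 0, ψ * I]))) := by
  have hinv : (AA 0)⁻¹ = AA 0 := Matrix.inv_eq_left_inv AA0_sq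
  have hterm : ∀ r : ℕ, star V0 ⬝ᵥ (((X0 ε ψ)ᴴ ^ r * AA j * (AA 0)⁻¹ * AA s *
      (X0 ε ψ) ^ r) *ᵥ V0) = star (X0 ε ψ ^ r *ᵥ V0) ⬝ᵥ
        ((AA j * AA 0 * AA s) *ᵥ (X0 ε ψ ^ r *ᵥ V0)) := by
    intro r
    rw [← quad_conj, hinv, conjTranspose_pow]
    simp only [mul_assoc]
  simp only [hterm]
  have h0 : ∀ r : ℕ, star (X0 ε ψ ^ (r + 2) *ᵥ V0) ⬝ᵥ
        ((AA j * AA 0 * AA s) *ᵥ (X0 ε ψ ^ (r + 2) *ᵥ V0)) =
        ge j * ge s * ((ψ : ℂ) ^ 4 * ((ψ ^ 2 : ℝ) : ℂ) ^ r) := by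
    intro r
    rw [Vr_eq, quad_e5]
    congr 1
    rw [Complex.star_def, Complex.conj_mul', norm_pow, norm_mul, Complex.norm_I, mul_one,
      Complex.norm_real, Real.norm_eq_abs]
    rw [← Complex.ofReal_pow, ← pow_mul, mul_comm (r + 2) 2, pow_mul, sq_abs]
    push_cast
    ring
  have hψ2 : ψ ^ 2 < 1 := by
    rw [← sq_abs]
    exact pow_lt_one₀ (abs_nonneg _) hψ two_ne_zero
  have h1 : HasSum (fun r : ℕ => ge j * ge s * ((ψ : ℂ) ^ 4 * ((ψ ^ 2 : ℝ) : ℂ) ^ r))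
      (ge j * ge s * ((ψ : ℂ) ^ 4 * γ)) := by
    refine (HasSum.mul_left _ ?_).mul_left _
    have h2 := hasSum_geometric_of_lt_one (sq_nonneg ψ) hψ2
    have h3 : (1 - ψ ^ 2)⁻¹ = γ := (eq_inv_of_mul_eq_one_left hγ).symm
    rw [h3] at h2
    have h5 := Complex.hasSum_ofReal.2 h2
    simp only [Complex.ofReal_pow] at h5 ⊢
    exact h5
  have h4 := (hasSum_nat_add_iff (f := fun r : ℕ => star (X0 ε ψ ^ r *ᵥ V0) ⬝ᵥ
        ((AA j * AA 0 * AA s) *ᵥ (X0 ε ψ ^ r *ᵥ V0))) 2).1 (by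
      simp only [h0]
      exact h1)
  rw [Finset.sum_range_succ, Finset.sum_range_one, pow_zero, pow_one, one_mulVec, V1_eq] at h4
  exact h4

/-- The nondegeneracy matrix. -/
def NM (ε γ : ℝ) : Matrix (Fin 5) (Fin 5) ℝ :=
  !![11 + γ, γ, 2, 0, 0; γ, γ, 0, 0, 0; 2, 0, 1, 0, 0; 0, 0, 0, 1, 0; 0, 0, 0, 0, ε ^ 2]

lemma nondeg_eq {ε ψ γ : ℝ} (hψ : |ψ| < 1) (hγ : γ * (1 - ψ ^ 2) = 1)
    (hsol : sol AA bb (aa ε) = X0 ε ψ) : nondegMatrix AA bb (aa ε) V0 = NM ε γ := by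
  ext j s
  unfold nondegMatrix
  rw [of_apply, hsol, Am_aa, (quad_hasSum hψ hγ j s).tsum_eq, quad_AA, quad_AA, AA_mulVec,
    AA_mulVec, AA_mulVec, AA_mulVec, AA_mulVec, AA_mulVec]
  have hγ' : ψ ^ 4 * γ = γ - 1 - ψ ^ 2 := by linear_combination (-(1 + ψ ^ 2)) * hγ
  have hγc : (ψ : ℂ) ^ 4 * γ = ((γ - 1 - ψ ^ 2 : ℝ) : ℂ) := by
    rw [← hγ']; push_cast; ring
  rw [hγc]
  fin_cases j <;> fin_cases s <;> simp [dotProduct, Fin.sum_univ_six, ge, V0, NM]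
  all_goals (try simp only [← Complex.ofReal_pow, Complex.ofReal_re])
  all_goals ring

lemma NM_posDef {ε γ : ℝ} (hε : ε ≠ 0) (hγ : 0 < γ) : (NM ε γ).PosDef := by
  rw [posDef_iff_dotProduct_mulVec]
  refine ⟨?_, ?_⟩
  · ext p q
    fin_cases p <;> fin_cases q <;> simp [NM]
  · intro x hx
    have h1 : star x ⬝ᵥ (NM ε γ *ᵥ x) = 7 * x 0 ^ 2 + (2 * x 0 + x 2) ^ 2 + γ * (x 0 + x 1) ^ 2 +
        x 3 ^ 2 + (ε * x 4) ^ 2 := by
      simp only [dotProduct, mulVec, Fin.sum_univ_five]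
      simp [NM]
      ring
    rw [h1]
    by_contra hcon
    push Not at hcon
    have a1 : 0 ≤ 7 * x 0 ^ 2 := by positivity
    have a2 : 0 ≤ (2 * x 0 + x 2) ^ 2 := by positivity
    have a3 : 0 ≤ γ * (x 0 + x 1) ^ 2 := by positivity
    have a4 : 0 ≤ x 3 ^ 2 := by positivity
    have a5 : 0 ≤ (ε * x 4) ^ 2 := by positivity
    have b0 : x 0 = 0 := by
      have : x 0 ^ 2 = 0 := by linarith
      exact pow_eq_zero_iff two_ne_zero |>.1 this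
    have b2 : x 2 = 0 := by
      have h2 : (2 * x 0 + x 2) ^ 2 = 0 := by linarith
      have h3 := pow_eq_zero_iff two_ne_zero |>.1 h2
      rw [b0] at h3; linarith
    have b1 : x 1 = 0 := by
      have h2 : γ * (x 0 + x 1) ^ 2 = 0 := by linarith
      have h3 := (mul_eq_zero.1 h2).resolve_left hγ.ne'
      have h4 := pow_eq_zero_iff two_ne_zero |>.1 h3
      rw [b0] at h4; linarith
    have b3 : x 3 = 0 := by
      have : x 3 ^ 2 = 0 := by linarith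
      exact pow_eq_zero_iff two_ne_zero |>.1 this
    have b4 : x 4 = 0 := by
      have h2 : (ε * x 4) ^ 2 = 0 := by linarith
      have h3 := pow_eq_zero_iff two_ne_zero |>.1 h2
      exact (mul_eq_zero.1 h3).resolve_left hε
    apply hx
    ext i
    fin_cases i <;> simp [b0, b1, b2, b3, b4]

end Pool.Agent.Work.MP_a09116_an
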