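import Pool.Agent.Work.MP_a09116_an.Solve

set_option autoImplicit false
set_option linter.unusedSectionVars false

/-!
Smoothness of `X(a)` and `K_j`.
-/

namespace Pool.Agent.Work.MP_a09116_an

open scoped Matrix.Norms.L2Operator ContDiff
open Matrix Filter Topology

section Implicit

variable {E G : Type*} [NormedAddCommGroup E] [NormedSpace ℝ E] [CompleteSpace E]
  [NormedAddCommGroup G] [NormedSpace ℝ G] [FiniteDimensional ℝ G] [CompleteSpace G]

/-- An implicitly defined function is smooth. -/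
lemma contDiffAt_of_implicit {F : E × G → G} {y : E → G} {u : E}
    (hF : ContDiffAt ℝ 1 F (u, y u)) (h0 : F (u, y u) = 0)
    (hinj : ∀ D, fderiv ℝ F (u, y u) (0, D) = 0 → D = 0)
    (huniq : ∀ᶠ p in 𝓝 (u, y u), F p = 0 → y p.1 = p.2) : ContDiffAt ℝ 1 y u := by
  have hinj' : Function.Injective (fderiv ℝ F (u, y u) ∘L ContinuousLinearMap.inr ℝ E G) := by
    rw [injective_iff_map_eq_zero]
    intro D hD
    exact hinj D hD
  have if₂ : (fderiv ℝ F (u, y u) ∘L ContinuousLinearMap.inr ℝ E G).IsInvertible := by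
    refine ⟨(LinearEquiv.ofInjectiveEndo
      (fderiv ℝ F (u, y u) ∘L ContinuousLinearMap.inr ℝ E G).toLinearMap hinj').toContinuousLinearEquiv,
      ?_⟩
    ext D
    rfl
  set ψ := hF.implicitFunction one_ne_zero if₂ with hψ
  have h1 : ψ u = y u := hF.implicitFunction_apply_self one_ne_zero if₂
  have h2 : ContDiffAt ℝ 1 ψ u := hF.contDiffAt_implicitFunction one_ne_zero if₂
  have h3 : ∀ᶠ x in 𝓝 u, F (x, ψ x) = F (u, y u) :=
    hF.eventually_apply_implicitFunction one_ne_zero if₂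
  have h4 : Tendsto (fun x => (x, ψ x)) (𝓝 u) (𝓝 (u, y u)) := by
    have := (continuousAt_id.prodMk h2.continuousAt).tendsto
    simpa [h1] using this
  have h5 : y =ᶠ[𝓝 u] ψ := by
    filter_upwards [h3, h4.eventually huniq] with x hx1 hx2
    exact hx2 (hx1.trans h0)
  exact h2.congr_of_eventuallyEq h5

end Implicit

variable {n d : ℕ}

lemma ct_contDiff : ContDiff ℝ 1 (fun X : Mt n => Xᴴ) :=
  (starL' (A := Mt n) ℝ).contDiff

lemma Pm_contDiff (A : Fin d → Mt n) : ContDiff ℝ 1 (fun a : Fin d → ℂ => Pm A a) := by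
  unfold Pm
  fun_prop

lemma star_contDiff : ContDiff ℝ 1 (fun z : ℂ => star z) := Complex.conjCLE.contDiff

lemma Am_contDiff (A : Fin d → Mt n) (b : Fin d → ℝ) :
    ContDiff ℝ 1 (fun a : Fin d → ℂ => Am A b a) := by
  unfold Am
  refine ContDiff.sum (fun j _ => ?_)
  have h1 : ContDiff ℝ 1 (fun a : Fin d → ℂ => (b j : ℂ) - a j - star (a j)) := by
    refine ContDiff.sub (by fun_prop) ?_
    exact star_contDiff.comp (by fun_prop)
  exact h1.smul (contDiff_const (c := A j))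

/-- The defining equation. -/
def Feq (A : Fin d → Mt n) (b : Fin d → ℝ) (p : (Fin d → ℂ) × Mt n) : Mt n :=
  Pm A p.1 * p.2 ^ 2 + Am A b p.1 * p.2 + (Pm A p.1)ᴴ

lemma Feq_contDiff (A : Fin d → Mt n) (b : Fin d → ℝ) : ContDiff ℝ 1 (Feq A b) := by
  unfold Feq
  refine ContDiff.add (ContDiff.add ?_ ?_) ?_
  · exact ((Pm_contDiff A).comp contDiff_fst).mul (contDiff_snd.pow 2)
  · exact ((Am_contDiff A b).comp contDiff_fst).mul contDiff_snd
  · exact ct_contDiff.comp ((Pm_contDiff A).comp contDiff_fst)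

lemma Feq_partial (A : Fin d → Mt n) (b : Fin d → ℝ) (a : Fin d → ℂ) (X D : Mt n) :
    fderiv ℝ (Feq A b) (a, X) (0, D) = Pm A a * (X * D + D * X) + Am A b a * D := by
  have h1 : HasFDerivAt (Feq A b) (fderiv ℝ (Feq A b) (a, X)) (a, X) :=
    ((Feq_contDiff A b).differentiable one_ne_zero).differentiableAt.hasFDerivAt
  have h2 : HasDerivAt (fun t : ℝ => X + t • D) D 0 := by
    have := ((hasDerivAt_id (0 : ℝ)).smul_const D).const_add X
    simpa using this
  have h3 : HasDerivAt (fun t : ℝ => (a, X + t • D)) ((0 : Fin d → ℂ), D) 0 :=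
    (hasDerivAt_const (0 : ℝ) a).prodMk h2
  have h4 : HasDerivAt (fun t : ℝ => Feq A b (a, X + t • D))
      (fderiv ℝ (Feq A b) (a, X) (0, D)) 0 := by
    have h5 : HasFDerivAt (Feq A b) (fderiv ℝ (Feq A b) (a, X)) ((fun t : ℝ => (a, X + t • D)) 0) := by
      simpa using h1
    exact h5.comp_hasDerivAt (0 : ℝ) h3
  have h6 : HasDerivAt (fun t : ℝ => Feq A b (a, X + t • D))
      (Pm A a * (X * D + D * X) + Am A b a * D) 0 := by
    have e : (fun t : ℝ => Feq A b (a, X + t • D)) = fun t : ℝ =>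
        Pm A a * ((X + t • D) * (X + t • D)) + Am A b a * (X + t • D) + (Pm A a)ᴴ := by
      funext t
      unfold Feq
      rw [sq]
    rw [e]
    have h7 := ((h2.mul h2).const_mul (Pm A a)).add (h2.const_mul (Am A b a))
    have h8 := h7.add_const ((Pm A a)ᴴ)
    have hv : Pm A a * (X * D + D * X) + Am A b a * D =
        Pm A a * (D * (X + (0 : ℝ) • D) + (X + (0 : ℝ) • D) * D) + Am A b a * D := by
      rw [zero_smul, add_zero, add_comm (D * X)]
    rw [hv]
    exact h8
  exact h4.unique h6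

section

variable {A : Fin d → Mt n} {b : Fin d → ℝ} {Bi : Mt n} (hB : Bi * Bm A b = 1)
  (hB' : Bm A b * Bi = 1) {a : Fin d → ℂ} (ha : ‖a‖ < rad A Bi)

include hB hB' ha in
lemma sol_contDiffAt : ContDiffAt ℝ 1 (sol A b) a := by
  have hsol := sol_isSol hB ha hB'
  refine contDiffAt_of_implicit (F := Feq A b) (Feq_contDiff A b).contDiffAt hsol.2 ?_ ?_
  · intro D hD
    rw [Feq_partial] at hD
    exact linear_inj hB ha hsol.1.le hsol.1.le hD
  · have h1 : ∀ᶠ p : (Fin d → ℂ) × Mt n in 𝓝 (a, sol A b a), ‖p.1‖ < rad A Bi :=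
      (continuous_fst.norm).continuousAt.eventually_lt_const ha
    have h2 : ∀ᶠ p : (Fin d → ℂ) × Mt n in 𝓝 (a, sol A b a), ‖p.2‖ < 1 :=
      (continuous_snd.norm).continuousAt.eventually_lt_const hsol.1
    filter_upwards [h1, h2] with p hp1 hp2 hp3
    exact sol_eq hB hp1 hB' ⟨hp2, hp3⟩

end

/-- The Stein equation. -/
def Seq (M : Mt n) (p : Mt n × Mt n) : Mt n := p.2 - p.1ᴴ * p.2 * p.1 - M

lemma Seq_contDiff (M : Mt n) : ContDiff ℝ 1 (Seq M) := by
  unfold Seq
  refine ContDiff.sub (contDiff_snd.sub ?_) contDiff_const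
  exact ((ct_contDiff.comp contDiff_fst).mul contDiff_snd).mul contDiff_fst

lemma Seq_partial (M X K D : Mt n) :
    fderiv ℝ (Seq M) (X, K) (0, D) = D - Xᴴ * D * X := by
  have h1 : HasFDerivAt (Seq M) (fderiv ℝ (Seq M) (X, K)) (X, K) :=
    ((Seq_contDiff M).differentiable one_ne_zero).differentiableAt.hasFDerivAt
  have h2 : HasDerivAt (fun t : ℝ => K + t • D) D 0 := by
    have := ((hasDerivAt_id (0 : ℝ)).smul_const D).const_add K
    simpa using this
  have h3 : HasDerivAt (fun t : ℝ => (X, K + t • D)) ((0 : Mt n), D) 0 :=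
    (hasDerivAt_const (0 : ℝ) X).prodMk h2
  have h4 : HasDerivAt (fun t : ℝ => Seq M (X, K + t • D))
      (fderiv ℝ (Seq M) (X, K) (0, D)) 0 := by
    have h5 : HasFDerivAt (Seq M) (fderiv ℝ (Seq M) (X, K)) ((fun t : ℝ => (X, K + t • D)) 0) := by
      simpa using h1
    exact h5.comp_hasDerivAt (0 : ℝ) h3
  have h6 : HasDerivAt (fun t : ℝ => Seq M (X, K + t • D)) (D - Xᴴ * D * X) 0 := by
    have e : (fun t : ℝ => Seq M (X, K + t • D)) = fun t : ℝ =>
        (K + t • D) - Xᴴ * (K + t • D) * X - M := rfl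
    rw [e]
    exact (h2.sub ((h2.const_mul Xᴴ).mul_const X)).sub_const M
  exact h4.unique h6

lemma Ksum_contDiffAt (M : Mt n) {X : Mt n} (hX : ‖X‖ < 1) :
    ContDiffAt ℝ 1 (fun Y => Ksum M Y) X := by
  refine contDiffAt_of_implicit (F := Seq M) (y := fun Y => Ksum M Y)
    (Seq_contDiff M).contDiffAt ?_ ?_ ?_
  · unfold Seq
    simp only
    rw [Ksum_eq M hX, sub_self]
  · intro D hD
    rw [Seq_partial] at hD
    exact stein_unique hX (sub_eq_zero.1 hD)
  · have h2 : ∀ᶠ p : Mt n × Mt n in 𝓝 (X, Ksum M X), ‖p.1‖ < 1 :=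
      (continuous_fst.norm).continuousAt.eventually_lt_const hX
    filter_upwards [h2] with p hp2 hp3
    exact Ksum_unique hp2 (sub_eq_zero.1 hp3)

end Pool.Agent.Work.MP_a09116_an
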