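import Pool.Agent.Work.MP_a09116_an.Stein

set_option autoImplicit false
set_option linter.unusedSectionVars false

/-!
Existence and uniqueness of `X(a)` for small `a`.
-/

namespace Pool.Agent.Work.MP_a09116_an

open scoped Matrix.Norms.L2Operator
open Matrix Filter Topology

variable {n d : ℕ}

/-- The sum of the norms. -/
noncomputable def SA (A : Fin d → Mt n) : ℝ := ∑ j, ‖A j‖

lemma SA_nonneg (A : Fin d → Mt n) : 0 ≤ SA A := Finset.sum_nonneg (fun _ _ => norm_nonneg _)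

lemma norm_comb_le (A : Fin d → Mt n) (c : Fin d → ℂ) {t : ℝ} (hc : ∀ j, ‖c j‖ ≤ t) :
    ‖∑ j, c j • A j‖ ≤ t * SA A := by
  refine (norm_sum_le _ _).trans ?_
  unfold SA
  rw [Finset.mul_sum]
  refine Finset.sum_le_sum (fun j _ => ?_)
  rw [norm_smul]
  exact mul_le_mul_of_nonneg_right (hc j) (norm_nonneg _)

lemma norm_Pm_le (A : Fin d → Mt n) (a : Fin d → ℂ) : ‖Pm A a‖ ≤ ‖a‖ * SA A :=
  norm_comb_le A a (fun j => norm_le_pi_norm a j)

/-- `∑ (a_j + conj a_j) A_j`. -/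
def Rm (A : Fin d → Mt n) (a : Fin d → ℂ) : Mt n := ∑ j, (a j + star (a j)) • A j

lemma norm_Rm_le (A : Fin d → Mt n) (a : Fin d → ℂ) : ‖Rm A a‖ ≤ (2 * ‖a‖) * SA A := by
  refine norm_comb_le A _ (fun j => ?_)
  refine (norm_add_le _ _).trans ?_
  rw [norm_star]
  have := norm_le_pi_norm a j
  linarith

/-- `∑ b_j A_j`. -/
def Bm (A : Fin d → Mt n) (b : Fin d → ℝ) : Mt n := ∑ j, (b j : ℂ) • A j

lemma Am_eq (A : Fin d → Mt n) (b : Fin d → ℝ) (a : Fin d → ℂ) :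
    Am A b a = Bm A b - Rm A a := by
  unfold Am Bm Rm
  rw [← Finset.sum_sub_distrib]
  refine Finset.sum_congr rfl (fun j _ => ?_)
  rw [← sub_smul, sub_sub]

/-- The radius of solvability, depending on the inverse of `B`. -/
noncomputable def rad (A : Fin d → Mt n) (Bi : Mt n) : ℝ := 1 / (8 * (‖Bi‖ * SA A) + 1)

lemma rad_pos (A : Fin d → Mt n) (Bi : Mt n) : 0 < rad A Bi := by
  unfold rad
  have := mul_nonneg (norm_nonneg Bi) (SA_nonneg A)
  positivity

lemma rad_spec {A : Fin d → Mt n} {Bi : Mt n} {a : Fin d → ℂ} (ha : ‖a‖ < rad A Bi) :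
    8 * (‖Bi‖ * SA A) * ‖a‖ ≤ 1 := by
  unfold rad at ha
  have h0 := mul_nonneg (norm_nonneg Bi) (SA_nonneg A)
  rw [lt_div_iff₀ (by positivity)] at ha
  nlinarith [norm_nonneg a]

section

variable {A : Fin d → Mt n} {b : Fin d → ℝ} {Bi : Mt n} (hB : Bi * Bm A b = 1)
  {a : Fin d → ℂ} (ha : ‖a‖ < rad A Bi)

include ha in
lemma small_bound {X Y D : Mt n} (hX : ‖X‖ ≤ 1) (hY : ‖Y‖ ≤ 1) :
    ‖Bi * (Rm A a * D - Pm A a * (X * D + D * Y))‖ ≤ 1 / 2 * ‖D‖ := by
  have h1 : ‖Rm A a * D - Pm A a * (X * D + D * Y)‖ ≤ (4 * ‖a‖ * SA A) * ‖D‖ := by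
    have e1 : ‖Rm A a * D‖ ≤ (2 * ‖a‖) * SA A * ‖D‖ :=
      (norm_mul_le _ _).trans (mul_le_mul_of_nonneg_right (norm_Rm_le A a) (norm_nonneg _))
    have e2 : ‖X * D + D * Y‖ ≤ 2 * ‖D‖ := by
      have e3 : ‖X * D‖ ≤ 1 * ‖D‖ :=
        (norm_mul_le _ _).trans (mul_le_mul_of_nonneg_right hX (norm_nonneg _))
      have e4 : ‖D * Y‖ ≤ ‖D‖ * 1 :=
        (norm_mul_le _ _).trans (mul_le_mul_of_nonneg_left hY (norm_nonneg _))
      have := norm_add_le (X * D) (D * Y)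
      linarith
    have e5 : ‖Pm A a * (X * D + D * Y)‖ ≤ (‖a‖ * SA A) * (2 * ‖D‖) := by
      refine (norm_mul_le _ _).trans ?_
      exact mul_le_mul (norm_Pm_le A a) e2 (norm_nonneg _)
        (mul_nonneg (norm_nonneg _) (SA_nonneg A))
    have := norm_sub_le (Rm A a * D) (Pm A a * (X * D + D * Y))
    linarith
  have h2 := rad_spec ha
  calc ‖Bi * (Rm A a * D - Pm A a * (X * D + D * Y))‖
      ≤ ‖Bi‖ * ((4 * ‖a‖ * SA A) * ‖D‖) :=
        (norm_mul_le _ _).trans (mul_le_mul_of_nonneg_left h1 (norm_nonneg _))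
    _ = (8 * (‖Bi‖ * SA A) * ‖a‖) * ‖D‖ / 2 := by ring
    _ ≤ 1 * ‖D‖ / 2 := by
        have := mul_le_mul_of_nonneg_right h2 (norm_nonneg D)
        linarith
    _ = 1 / 2 * ‖D‖ := by ring

include hB ha in
/-- The linearised equation has only the zero solution. -/
lemma linear_inj {X Y D : Mt n} (hX : ‖X‖ ≤ 1) (hY : ‖Y‖ ≤ 1)
    (h : Pm A a * (X * D + D * Y) + Am A b a * D = 0) : D = 0 := by
  have h1 : D = Bi * (Rm A a * D - Pm A a * (X * D + D * Y)) := by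
    rw [Am_eq, sub_mul] at h
    have h2 : Bm A b * D = Rm A a * D - Pm A a * (X * D + D * Y) := by
      have h3 : Bm A b * D - (Rm A a * D - Pm A a * (X * D + D * Y)) = 0 := by
        rw [← h]; abel
      exact sub_eq_zero.1 h3
    rw [← h2, ← mul_assoc, hB, one_mul]
  have h2 := small_bound (Bi := Bi) ha (D := D) hX hY
  rw [← h1] at h2
  have h3 := norm_nonneg D
  exact norm_eq_zero.1 (by linarith)

include hB ha in
lemma sol_unique {X Y : Mt n} (hX : IsSol A b a X) (hY : IsSol A b a Y) : X = Y := by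
  have h : Pm A a * (X * (X - Y) + (X - Y) * Y) + Am A b a * (X - Y) = 0 := by
    have h1 := hX.2
    have h2 := hY.2
    have h3 : (Pm A a * X ^ 2 + Am A b a * X + (Pm A a)ᴴ) -
        (Pm A a * Y ^ 2 + Am A b a * Y + (Pm A a)ᴴ) = 0 := by rw [h1, h2, sub_zero]
    rw [← h3, sq, sq]
    noncomm_ring
  exact sub_eq_zero.1 (linear_inj hB ha hX.1.le hY.1.le h)

include ha in
lemma exists_sol (hB' : Bm A b * Bi = 1) : ∃ X, IsSol A b a X := by
  let f : Mt n → Mt n := fun X => Bi * (Rm A a * X - Pm A a * X ^ 2 - (Pm A a)ᴴ)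
  have hfd : ∀ X Y : Mt n, ‖X‖ ≤ 1 → ‖Y‖ ≤ 1 → ‖f X - f Y‖ ≤ 1 / 2 * ‖X - Y‖ := by
    intro X Y hX hY
    have e : f X - f Y =
        Bi * (Rm A a * (X - Y) - Pm A a * (X * (X - Y) + (X - Y) * Y)) := by
      simp only [f]
      rw [sq, sq]
      noncomm_ring
    rw [e]
    exact small_bound ha hX hY
  have hf0 : ‖f 0‖ ≤ 1 / 4 := by
    have e : f 0 = -(Bi * (Pm A a)ᴴ) := by
      simp only [f]
      noncomm_ring
    rw [e, norm_neg]
    have h1 := rad_spec ha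
    have h2 := norm_Pm_le A a
    calc ‖Bi * (Pm A a)ᴴ‖ ≤ ‖Bi‖ * (‖a‖ * SA A) := by
          refine (norm_mul_le _ _).trans ?_
          rw [norm_ct]
          exact mul_le_mul_of_nonneg_left h2 (norm_nonneg _)
      _ = (8 * (‖Bi‖ * SA A) * ‖a‖) / 8 := by ring
      _ ≤ 1 / 4 := by linarith
  have hmaps : Set.MapsTo f (Metric.closedBall (0 : Mt n) (1 / 2)) (Metric.closedBall 0 (1 / 2)) := by
    intro X hX
    rw [mem_closedBall_zero_iff] at hX ⊢
    have h1 := hfd X 0 (by linarith) (by simp)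
    rw [sub_zero] at h1
    have h2 : ‖f X‖ ≤ ‖f X - f 0‖ + ‖f 0‖ := by
      calc ‖f X‖ = ‖(f X - f 0) + f 0‖ := by rw [sub_add_cancel]
        _ ≤ _ := norm_add_le _ _
    linarith
  have hcontr : ContractingWith (1 / 2 : NNReal) (hmaps.restrict f _ _) := by
    refine ⟨by
      have : (1 / 2 : NNReal) < 1 := by
        rw [← NNReal.coe_lt_coe]
        norm_num
      exact this, ?_⟩
    refine LipschitzWith.of_dist_le_mul (fun X Y => ?_)
    have hX := mem_closedBall_zero_iff.1 X.2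
    have hY := mem_closedBall_zero_iff.1 Y.2
    have := hfd X.1 Y.1 (by linarith) (by linarith)
    rw [Subtype.dist_eq, Subtype.dist_eq, dist_eq_norm, dist_eq_norm]
    simpa using this
  obtain ⟨X, hXmem, hX, _, _⟩ := hcontr.exists_fixedPoint' (Metric.isClosed_closedBall.isComplete)
    hmaps (x := 0) (by simp) (edist_ne_top _ _)
  have hXn := mem_closedBall_zero_iff.1 hXmem
  refine ⟨X, by linarith, ?_⟩
  have hX' : Bi * (Rm A a * X - Pm A a * X ^ 2 - (Pm A a)ᴴ) = X := hX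
  have h1 : Bm A b * X = Rm A a * X - Pm A a * X ^ 2 - (Pm A a)ᴴ := by
    conv_lhs => rw [← hX']
    rw [← mul_assoc, hB', one_mul]
  rw [Am_eq, sub_mul, h1]
  abel

include hB ha in
lemma existsUnique_sol (hB' : Bm A b * Bi = 1) : ∃! X, IsSol A b a X := by
  obtain ⟨X, hX⟩ := exists_sol ha hB'
  exact ⟨X, hX, fun Y hY => sol_unique hB ha hY hX⟩

include hB ha in
lemma sol_isSol (hB' : Bm A b * Bi = 1) : IsSol A b a (sol A b a) := by
  have h := existsUnique_sol hB ha hB'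
  unfold sol
  rw [dif_pos h]
  exact h.choose_spec.1

include hB ha in
lemma sol_eq (hB' : Bm A b * Bi = 1) {X : Mt n} (hX : IsSol A b a X) : sol A b a = X :=
  sol_unique hB ha (sol_isSol hB ha hB') hX

end

end Pool.Agent.Work.MP_a09116_an
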