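import Pool.Agent.Work.MP_a09116_an.Defs

set_option autoImplicit false
set_option linter.unusedSectionVars false

/-!
The Stein equation `K - X^* K X = M`.
-/

namespace Pool.Agent.Work.MP_a09116_an

open scoped Matrix.Norms.L2Operator
open Matrix

variable {n : ℕ}

/-- Matrices. -/
abbrev Mt (n : ℕ) : Type := Matrix (Fin n) (Fin n) ℂ

lemma norm_ct (X : Mt n) : ‖Xᴴ‖ = ‖X‖ := norm_star X

lemma stein_summable (M : Mt n) {X : Mt n} (hX : ‖X‖ < 1) :
    Summable (fun r : ℕ => Xᴴ ^ r * M * X ^ r) := by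
  rcases Nat.eq_zero_or_pos n with rfl | hn
  · convert summable_zero with r
    exact Subsingleton.elim _ _
  have : NeZero n := ⟨hn.ne'⟩
  have hn1 : Nontrivial (Mt n) := inferInstance
  refine Summable.of_norm_bounded (g := fun r => ‖M‖ * ‖X‖ ^ r) ?_ (fun r => ?_)
  · exact (summable_geometric_of_lt_one (norm_nonneg _) hX).mul_left _
  · calc ‖Xᴴ ^ r * M * X ^ r‖ ≤ ‖Xᴴ ^ r‖ * ‖M‖ * ‖X ^ r‖ := by
          refine (norm_mul_le _ _).trans ?_
          exact mul_le_mul_of_nonneg_right (norm_mul_le _ _) (norm_nonneg _)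
      _ ≤ 1 * ‖M‖ * ‖X‖ ^ r := by
          have h1 : ‖Xᴴ ^ r‖ ≤ 1 := by
            refine (norm_pow_le _ _).trans ?_
            rw [norm_ct]
            exact pow_le_one₀ (norm_nonneg _) hX.le
          have h2 : ‖X ^ r‖ ≤ ‖X‖ ^ r := norm_pow_le _ _
          gcongr
      _ = ‖M‖ * ‖X‖ ^ r := by rw [one_mul]

lemma stein_unique {X K : Mt n} (hX : ‖X‖ < 1) (h : K = Xᴴ * K * X) : K = 0 := by
  have h1 : ‖K‖ ≤ ‖X‖ * ‖K‖ * ‖X‖ := by
    conv_lhs => rw [h]
    refine (norm_mul_le _ _).trans ?_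
    refine mul_le_mul_of_nonneg_right ?_ (norm_nonneg _)
    refine (norm_mul_le _ _).trans ?_
    rw [norm_ct]
  by_contra hK
  have h2 : 0 < ‖K‖ := norm_pos_iff.2 hK
  have h3 : ‖X‖ * ‖K‖ * ‖X‖ < 1 * ‖K‖ := by
    have h4 : 0 ≤ ‖X‖ := norm_nonneg _
    nlinarith [mul_pos h2 (sub_pos.2 hX)]
  linarith

lemma stein_unique' {X K K' M : Mt n} (hX : ‖X‖ < 1) (h : K - Xᴴ * K * X = M)
    (h' : K' - Xᴴ * K' * X = M) : K = K' := by
  have h1 : K - K' = Xᴴ * (K - K') * X := by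
    rw [mul_sub, sub_mul]
    have : K - Xᴴ * K * X = K' - Xᴴ * K' * X := h.trans h'.symm
    rw [sub_eq_sub_iff_add_eq_add] at this ⊢
    exact this.trans (add_comm _ _)
  exact sub_eq_zero.1 (stein_unique hX h1)

lemma Ksum_eq (M : Mt n) {X : Mt n} (hX : ‖X‖ < 1) :
    Ksum M X - Xᴴ * Ksum M X * X = M := by
  have hs := stein_summable M hX
  have h1 : Ksum M X = M + ∑' r : ℕ, Xᴴ ^ (r + 1) * M * X ^ (r + 1) := by
    unfold Ksum
    rw [hs.tsum_eq_zero_add]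
    simp
  have h2 : ∑' r : ℕ, Xᴴ ^ (r + 1) * M * X ^ (r + 1) = Xᴴ * Ksum M X * X := by
    unfold Ksum
    rw [← hs.tsum_mul_left, ← (hs.mul_left Xᴴ).tsum_mul_right]
    refine tsum_congr (fun r => ?_)
    rw [pow_succ', pow_succ]
    simp only [mul_assoc]
  rw [h2] at h1
  exact sub_eq_of_eq_add h1

lemma Ksum_unique {M K : Mt n} {X : Mt n} (hX : ‖X‖ < 1) (h : K - Xᴴ * K * X = M) :
    Ksum M X = K := stein_unique' hX (Ksum_eq M hX) h

lemma Ksum_star {M X : Mt n} (hX : ‖X‖ < 1) (hM : Mᴴ = M) : (Ksum M X)ᴴ = Ksum M X := by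
  refine stein_unique' hX (M := M) ?_ (Ksum_eq M hX)
  have := congrArg conjTranspose (Ksum_eq M hX)
  rw [conjTranspose_sub, conjTranspose_mul, conjTranspose_mul, conjTranspose_conjTranspose, hM,
    ← mul_assoc] at this
  exact this

end Pool.Agent.Work.MP_a09116_an
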